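import Mathlib

/-! Dual form of the Sauer-Shelah lemma: `q` members of a family of VC-dimension at most `d`
cut a finite set into at most `(q + 1) ^ (2 ^ (d + 1) - 1)` cells. -/

set_option autoImplicit false

namespace Pool.Agent.Hhelper19.VC

open Finset

/-- The pattern of `v` with respect to an indexed family of finsets. -/
def pat {V ι : Type} [DecidableEq V] [Fintype ι] [DecidableEq ι] (A : ι → Finset V) (v : V) :
    Finset ι := Finset.univ.filter (fun i => v ∈ A i)

lemma mem_pat {V ι : Type} [DecidableEq V] [Fintype ι] [DecidableEq ι] (A : ι → Finset V) (v : V)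
    (i : ι) : i ∈ pat A v ↔ v ∈ A i := by simp [pat]

lemma shatter_dual {V ι : Type} [DecidableEq V] [Fintype ι] [DecidableEq ι]
    (F : Finset (Finset V)) (d : ℕ) (hd : F.vcDim ≤ d) (A : ι → Finset V) (hA : ∀ i, A i ∈ F)
    (S : Finset V) (J : Finset ι) (hJ : (S.image (pat A)).Shatters J) : J.card < 2 ^ (d + 1) := by
  classical
  by_contra hcon
  push Not at hcon
  have hc : Fintype.card (Finset (Fin (d + 1))) ≤ Fintype.card J := by
    rw [Fintype.card_finset, Fintype.card_fin, Fintype.card_coe]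
    exact hcon
  obtain ⟨e⟩ := Function.Embedding.nonempty_of_card_le hc
  have key : ∀ i : Fin (d + 1), ∃ v : V, ∀ X : Finset (Fin (d + 1)),
      v ∈ A (e X : ι) ↔ i ∈ X := by
    intro i
    set t : Finset ι := (Finset.univ.filter (fun X : Finset (Fin (d + 1)) => i ∈ X)).image
      (fun X => ((e X : J) : ι)) with ht
    have hsub : t ⊆ J := by
      intro x hx
      rw [ht, mem_image] at hx
      obtain ⟨X, -, rfl⟩ := hx
      exact (e X).2
    obtain ⟨u, hu, hut⟩ := hJ hsub
    obtain ⟨v, -, rfl⟩ := mem_image.1 hu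
    refine ⟨v, fun X => ?_⟩
    rw [← mem_pat]
    have h1 : ((e X : J) : ι) ∈ pat A v ↔ ((e X : J) : ι) ∈ t := by
      rw [← hut, mem_inter]
      exact ⟨fun h => ⟨(e X).2, h⟩, fun h => h.2⟩
    rw [h1, ht, mem_image]
    constructor
    · rintro ⟨Y, hY, hYX⟩
      have : Y = X := e.injective (Subtype.ext hYX)
      rw [← this]
      exact (mem_filter.1 hY).2
    · intro h
      exact ⟨X, mem_filter.2 ⟨mem_univ _, h⟩, rfl⟩
  choose v hv using key
  have hinj : Function.Injective v := by
    intro i j hij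
    have h1 := (hv i {i}).2 (mem_singleton_self i)
    rw [hij] at h1
    exact (mem_singleton.1 ((hv j {i}).1 h1)).symm
  have hsh : F.Shatters (Finset.univ.image v) := by
    intro t ht
    set X : Finset (Fin (d + 1)) := Finset.univ.filter (fun i => v i ∈ t) with hX
    refine ⟨A (e X), hA _, ?_⟩
    ext x
    rw [mem_inter, mem_image]
    constructor
    · rintro ⟨⟨i, -, rfl⟩, h⟩
      have := (hv i X).1 h
      rw [hX, mem_filter] at this
      exact this.2
    · intro hx
      obtain ⟨i, -, rfl⟩ := mem_image.1 (ht hx)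
      exact ⟨⟨i, mem_univ _, rfl⟩, (hv i X).2 (by rw [hX, mem_filter]; exact ⟨mem_univ _, hx⟩)⟩
  have h1 := hsh.card_le_vcDim
  rw [card_image_of_injective _ hinj, card_univ, Fintype.card_fin] at h1
  omega

lemma sum_choose_le (q D : ℕ) : ∑ k ∈ Iic D, q.choose k ≤ (q + 1) ^ D := by
  have e : Iic D = range (D + 1) := by
    ext x; simp
  rw [e, add_pow]
  apply sum_le_sum
  intro k hk
  have hkD : k ≤ D := by
    have := mem_range.1 hk
    omega
  have h1 : q.choose k ≤ q ^ k := Nat.choose_le_pow q k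
  have h2 : 0 < D.choose k := Nat.choose_pos hkD
  calc q.choose k ≤ q ^ k := h1
    _ = q ^ k * 1 ^ (D - k) * 1 := by simp
    _ ≤ q ^ k * 1 ^ (D - k) * D.choose k := Nat.mul_le_mul_left _ h2

lemma cells_le {V ι : Type} [DecidableEq V] [Fintype ι] [DecidableEq ι]
    (F : Finset (Finset V)) (d : ℕ) (hd : F.vcDim ≤ d) (A : ι → Finset V) (hA : ∀ i, A i ∈ F)
    (S : Finset V) : (S.image (pat A)).card ≤ (Fintype.card ι + 1) ^ (2 ^ (d + 1) - 1) := by
  have h1 : (S.image (pat A)).vcDim ≤ 2 ^ (d + 1) - 1 := by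
    unfold Finset.vcDim
    apply Finset.sup_le
    intro J hJ
    have := shatter_dual F d hd A hA S J (mem_shatterer.1 hJ)
    omega
  calc (S.image (pat A)).card ≤ (S.image (pat A)).shatterer.card := card_le_card_shatterer _
    _ ≤ ∑ k ∈ Iic (S.image (pat A)).vcDim, (Fintype.card ι).choose k :=
      card_shatterer_le_sum_vcDim
    _ ≤ ∑ k ∈ Iic (2 ^ (d + 1) - 1), (Fintype.card ι).choose k :=
      sum_le_sum_of_subset (Iic_subset_Iic.2 h1)
    _ ≤ _ := sum_choose_le _ _

end Pool.Agent.Hhelper19.VC
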