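import Mathlib
import Pool.Agent.Hhelper19.VC.Cells

/-! Choice of a level and of the sample points. -/

set_option autoImplicit false

namespace Pool.Agent.Hhelper19.VC

open Finset

lemma one_sub_pow_ge {y : ℝ} (hy0 : 0 ≤ y) (hy1 : y ≤ 1) (t : ℕ) (h : (t : ℝ) * y ≤ 1) :
    (t : ℝ) * y / 2 ≤ 1 - (1 - y) ^ t := by
  have h1 : 1 + (t : ℝ) * y ≤ (1 + y) ^ t := one_add_mul_le_pow (by linarith) t
  have h2 : (1 - y) ^ t * (1 + y) ^ t ≤ 1 := by
    rw [← mul_pow]
    apply pow_le_one₀
    · nlinarith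
    · nlinarith
  have h3 : 0 ≤ (1 - y) ^ t := pow_nonneg (by linarith) t
  have h4 : (1 - y) ^ t * (1 + (t : ℝ) * y) ≤ 1 :=
    (mul_le_mul_of_nonneg_left h1 h3).trans h2
  have h5 : 0 ≤ (t : ℝ) * y := by positivity
  set z := (t : ℝ) * y
  set p := (1 - y) ^ t
  by_contra hcon
  push Not at hcon
  have h6 : 1 - z / 2 < p := by linarith
  have h7 : (1 - z / 2) * (1 + z) < p * (1 + z) := mul_lt_mul_of_pos_right h6 (by linarith)
  nlinarith

lemma sum_levels (L : ℕ) :
    ∑ l ∈ range L, ((l : ℝ) + 1) / 2 ^ l = 4 - ((L : ℝ) + 2) * 2 / 2 ^ L := by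
  induction L with
  | zero => norm_num
  | succ L ih =>
    rw [sum_range_succ, ih]
    push_cast
    rw [pow_succ]
    have : (2 : ℝ) ^ L ≠ 0 := by positivity
    field_simp
    ring

lemma hits_ge {V : Type} [DecidableEq V] (S B : Finset V) (hB : B ⊆ S) (t : ℕ)
    (hS : 0 < S.card) (hte : t * B.card ≤ S.card) :
    (S.card : ℝ) ^ t * ((t : ℝ) * B.card / (2 * S.card)) ≤
      (((Fintype.piFinset (fun _ : Fin t => S)).filter (fun f => ∃ j, f j ∈ B)).card : ℝ) := by
  classical
  have hsplit := Finset.card_filter_add_card_filter_not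
    (s := Fintype.piFinset (fun _ : Fin t => S)) (fun f : Fin t → V => ∃ j, f j ∈ B)
  have h1 : (Fintype.piFinset (fun _ : Fin t => S)).card = S.card ^ t := by
    rw [Fintype.card_piFinset]
    simp
  have h2 : ((Fintype.piFinset (fun _ : Fin t => S)).filter (fun f => ¬ ∃ j, f j ∈ B)).card =
      (S.card - B.card) ^ t := by
    have : (Fintype.piFinset (fun _ : Fin t => S)).filter (fun f => ¬ ∃ j, f j ∈ B) =
        Fintype.piFinset (fun _ : Fin t => S \ B) := by
      ext f
      simp only [mem_filter, Fintype.mem_piFinset, mem_sdiff, not_exists]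
      constructor
      · rintro ⟨h, h'⟩ j
        exact ⟨h j, h' j⟩
      · intro h
        exact ⟨fun j => (h j).1, fun j => (h j).2⟩
    rw [this, Fintype.card_piFinset]
    simp [card_sdiff_of_subset hB]
  have hBS : B.card ≤ S.card := card_le_card hB
  rw [h1, h2] at hsplit
  have h3 : (((Fintype.piFinset (fun _ : Fin t => S)).filter (fun f => ∃ j, f j ∈ B)).card : ℝ) =
      (S.card : ℝ) ^ t - ((S.card : ℝ) - B.card) ^ t := by
    have := congrArg (fun n : ℕ => (n : ℝ)) hsplit
    push_cast [Nat.cast_sub hBS] at this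
    linarith
  rw [h3]
  have hn : (0 : ℝ) < S.card := by exact_mod_cast hS
  have hen' : (B.card : ℝ) ≤ (S.card : ℝ) := by exact_mod_cast hBS
  have hte' : (t : ℝ) * (B.card : ℝ) ≤ (S.card : ℝ) := by exact_mod_cast hte
  set n : ℝ := (S.card : ℝ) with hndef
  set e : ℝ := (B.card : ℝ) with hedef
  have he0 : 0 ≤ e := by positivity
  have hen : e ≤ n := hen'
  have h4 : (t : ℝ) * (e / n) ≤ 1 := by
    rw [← mul_div_assoc, div_le_one hn]
    exact hte'
  have h5 := one_sub_pow_ge (y := e / n) (by positivity) (by rw [div_le_one hn]; exact hen) t h4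
  have h6 : n ^ t - (n - e) ^ t = n ^ t * (1 - (1 - e / n) ^ t) := by
    have : (n - e) = n * (1 - e / n) := by field_simp
    rw [this, mul_pow]
    ring
  rw [h6]
  apply mul_le_mul_of_nonneg_left _ (by positivity)
  calc (t : ℝ) * e / (2 * n) = (t : ℝ) * (e / n) / 2 := by field_simp
    _ ≤ _ := h5

variable {V : Type} [DecidableEq V] {m : ℕ}

/-- The colours of `A` whose neighbourhood at `x` contains `y`. -/
def cols (N : Fin m → V → Finset V) (A : Finset (Fin m)) (x y : V) : Finset (Fin m) :=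
  A.filter (fun c => y ∈ N c x)

/-- The degree of the colour `k` at `x` inside `S`, for the colouring by the least colour. -/
def deg (N : Fin m → V → Finset V) (A : Finset (Fin m)) (S : Finset V) (k : Fin m) (x : V) : ℕ :=
  (S.filter (fun y => (cols N A x y).min = (k : WithTop (Fin m)))).card

/-- The oriented pairs. -/
def EE (N : Fin m → V → Finset V) (A : Finset (Fin m)) (S : Finset V) :
    Finset (V × V × Fin m) :=
  (S ×ˢ S ×ˢ A).filter (fun p => (cols N A p.1 p.2.1).min = (p.2.2 : WithTop (Fin m)) ∧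
    deg N A S p.2.2 p.2.1 ≤ deg N A S p.2.2 p.1)

/-- The level of a colour at a vertex. -/
def lv (N : Fin m → V → Finset V) (A : Finset (Fin m)) (S : Finset V) (k : Fin m) (v : V) : ℕ :=
  Nat.log 2 (S.card / deg N A S k v)

section
variable (N : Fin m → V → Finset V) (A : Finset (Fin m)) (S : Finset V)
  (hsym : ∀ c x y, y ∈ N c x → x ∈ N c y)
  (hirr : ∀ c, ∀ x ∈ S, x ∉ N c x)

include hsym in
lemma cols_comm (x y : V) : cols N A x y = cols N A y x := by
  unfold cols
  apply filter_congr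
  intro c _
  exact ⟨hsym c x y, hsym c y x⟩

lemma min_mem {x y : V} {k : Fin m} (h : (cols N A x y).min = (k : WithTop (Fin m))) :
    k ∈ A ∧ y ∈ N k x := by
  have := Finset.mem_of_min h
  exact mem_filter.1 this

include hirr in
lemma deg_sum_le {x : V} (hx : x ∈ S) : ∑ k ∈ A, deg N A S k x ≤ (S.erase x).card := by
  unfold deg
  rw [← card_biUnion]
  · apply card_le_card
    intro y hy
    simp only [mem_biUnion, mem_filter] at hy
    obtain ⟨k, hk, hyS, hmin⟩ := hy
    rw [mem_erase]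
    refine ⟨?_, hyS⟩
    rintro rfl
    exact hirr k y hyS (min_mem N A hmin).2
  · intro k _ k' _ hkk'
    rw [Function.onFun, disjoint_left]
    intro y hy hy'
    have h1 := (mem_filter.1 hy).2
    have h2 := (mem_filter.1 hy').2
    rw [h1] at h2
    exact hkk' (WithTop.coe_injective h2)

include hirr in
lemma card_big_le {x : V} (hx : x ∈ S) (l : ℕ) :
    (A.filter (fun k => S.card < deg N A S k x * 2 ^ (l + 1))).card ≤ 2 ^ (l + 1) := by
  have hpos : 0 < S.card := card_pos.2 ⟨x, hx⟩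
  have h1 : S.card * (A.filter (fun k => S.card < deg N A S k x * 2 ^ (l + 1))).card ≤
      ∑ k ∈ A.filter (fun k => S.card < deg N A S k x * 2 ^ (l + 1)),
        deg N A S k x * 2 ^ (l + 1) := by
    rw [mul_comm, ← smul_eq_mul, ← sum_const]
    apply sum_le_sum
    intro k hk
    exact (mem_filter.1 hk).2.le
  have h2 : ∑ k ∈ A.filter (fun k => S.card < deg N A S k x * 2 ^ (l + 1)),
        deg N A S k x * 2 ^ (l + 1) ≤ S.card * 2 ^ (l + 1) := by
    rw [← sum_mul]
    apply Nat.mul_le_mul_right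
    calc ∑ k ∈ A.filter (fun k => S.card < deg N A S k x * 2 ^ (l + 1)), deg N A S k x
        ≤ ∑ k ∈ A, deg N A S k x := sum_le_sum_of_subset (filter_subset _ _)
      _ ≤ (S.erase x).card := deg_sum_le N A S hirr hx
      _ ≤ S.card := card_le_card (erase_subset _ _)
  exact Nat.le_of_mul_le_mul_left (h1.trans h2) hpos

include hsym in
lemma deg_pos {x v : V} {k : Fin m} (hx : x ∈ S)
    (h : (cols N A x v).min = (k : WithTop (Fin m))) : 0 < deg N A S k v := by
  unfold deg
  apply card_pos.2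
  refine ⟨x, mem_filter.2 ⟨hx, ?_⟩⟩
  rw [cols_comm N A hsym]
  exact h

lemma deg_le (k : Fin m) (v : V) : deg N A S k v ≤ S.card := card_filter_le _ _

lemma lv_spec {k : Fin m} {v : V} (h : 0 < deg N A S k v) :
    2 ^ lv N A S k v * deg N A S k v ≤ S.card ∧
    S.card < deg N A S k v * 2 ^ (lv N A S k v + 1) := by
  have hle := deg_le N A S k v
  have h1 : S.card / deg N A S k v ≠ 0 := by
    have := (Nat.div_pos hle h)
    omega
  constructor
  · have h2 : 2 ^ lv N A S k v ≤ S.card / deg N A S k v := Nat.pow_log_le_self 2 h1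
    calc 2 ^ lv N A S k v * deg N A S k v ≤ S.card / deg N A S k v * deg N A S k v :=
        Nat.mul_le_mul_right _ h2
      _ ≤ S.card := Nat.div_mul_le_self _ _
  · have h2 : S.card / deg N A S k v < 2 ^ (lv N A S k v + 1) :=
      Nat.lt_pow_succ_log_self (by norm_num) _
    rw [mul_comm]
    exact (Nat.div_lt_iff_lt_mul h).1 h2

lemma lv_lt {k : Fin m} {v : V} : lv N A S k v < S.card + 1 := by
  unfold lv
  have h1 : Nat.log 2 (S.card / deg N A S k v) ≤ S.card / deg N A S k v := Nat.log_le_self _ _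
  have h2 : S.card / deg N A S k v ≤ S.card := Nat.div_le_self _ _
  omega

include hsym in
lemma EE_card (hcov : ∀ x ∈ S, ∀ y ∈ S, x ≠ y → ∃ c ∈ A, y ∈ N c x) :
    S.card * S.card - S.card ≤ 2 * (EE N A S).card := by
  classical
  have hsub : S.offDiag ⊆ (EE N A S).image (fun p => (p.1, p.2.1)) ∪
      (EE N A S).image (fun p => (p.2.1, p.1)) := by
    rintro ⟨x, y⟩ hxy
    rw [mem_offDiag] at hxy
    obtain ⟨hx, hy, hne⟩ := hxy
    obtain ⟨c, hc, hcy⟩ := hcov x hx y hy hne
    have hcm : c ∈ cols N A x y := mem_filter.2 ⟨hc, hcy⟩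
    obtain ⟨k, hk⟩ := Finset.min_of_mem hcm
    have hkA := (min_mem N A hk).1
    have hk' : (cols N A y x).min = (k : WithTop (Fin m)) := by
      rw [cols_comm N A hsym]; exact hk
    rw [mem_union]
    rcases le_total (deg N A S k y) (deg N A S k x) with h | h
    · left
      rw [mem_image]
      refine ⟨(x, y, k), ?_, rfl⟩
      unfold EE
      rw [mem_filter]
      exact ⟨mk_mem_product hx (mk_mem_product hy hkA), hk, h⟩
    · right
      rw [mem_image]
      refine ⟨(y, x, k), ?_, rfl⟩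
      unfold EE
      rw [mem_filter]
      exact ⟨mk_mem_product hy (mk_mem_product hx hkA), hk', h⟩
  have h1 := card_le_card hsub
  rw [offDiag_card] at h1
  have h2 := card_union_le ((EE N A S).image (fun p => (p.1, p.2.1)))
    ((EE N A S).image (fun p => (p.2.1, p.1)))
  have h3 : ((EE N A S).image (fun p : V × V × Fin m => (p.1, p.2.1))).card ≤ (EE N A S).card :=
    card_image_le
  have h4 : ((EE N A S).image (fun p : V × V × Fin m => (p.2.1, p.1))).card ≤ (EE N A S).card :=
    card_image_le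
  omega

include hsym in
/-- Choice of the level. -/
lemma exists_level (hS : 2 ≤ S.card)
    (hcov : ∀ x ∈ S, ∀ y ∈ S, x ≠ y → ∃ c ∈ A, y ∈ N c x) :
    ∃ l : ℕ, ((l : ℝ) + 1) / 2 ^ l * ((S.card : ℝ) * ((S.card : ℝ) - 1) / 8) ≤
      (((EE N A S).filter (fun p => lv N A S p.2.2 p.2.1 = l)).card : ℝ) := by
  by_contra hcon
  push Not at hcon
  have hn : (2 : ℝ) ≤ S.card := by exact_mod_cast hS
  have h1 : ((EE N A S).card : ℝ) = ∑ l ∈ range (S.card + 1),
      (((EE N A S).filter (fun p => lv N A S p.2.2 p.2.1 = l)).card : ℝ) := by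
    rw [← Nat.cast_sum]
    congr 1
    apply card_eq_sum_card_fiberwise
    intro p _
    simp only [coe_range, Set.mem_Iio]
    exact lv_lt N A S
  have h2 : ((EE N A S).card : ℝ) < ∑ l ∈ range (S.card + 1),
      ((l : ℝ) + 1) / 2 ^ l * ((S.card : ℝ) * ((S.card : ℝ) - 1) / 8) := by
    rw [h1]
    apply sum_lt_sum_of_nonempty
    · exact ⟨0, mem_range.2 (by omega)⟩
    · intro l _
      exact hcon l
  rw [← sum_mul, sum_levels] at h2
  have h3 := EE_card N A S hsym hcov
  have h4 : (S.card : ℝ) * S.card - S.card ≤ 2 * (EE N A S).card := by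
    have : S.card ≤ S.card * S.card := Nat.le_mul_self _
    have h5 : ((S.card * S.card - S.card : ℕ) : ℝ) ≤ ((2 * (EE N A S).card : ℕ) : ℝ) := by
      exact_mod_cast h3
    rw [Nat.cast_sub this] at h5
    push_cast at h5
    exact h5
  have h5 : (4 - (((S.card + 1 : ℕ) : ℝ) + 2) * 2 / 2 ^ (S.card + 1)) *
      ((S.card : ℝ) * ((S.card : ℝ) - 1) / 8) ≤ 4 * ((S.card : ℝ) * ((S.card : ℝ) - 1) / 8) := by
    apply mul_le_mul_of_nonneg_right
    · have : (0 : ℝ) ≤ (((S.card + 1 : ℕ) : ℝ) + 2) * 2 / 2 ^ (S.card + 1) := by positivity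
      linarith
    · apply div_nonneg
      · apply mul_nonneg <;> linarith
      · norm_num
  linarith

include hsym in
/-- Choice of the sample points. -/
lemma exists_sample (hS : 2 ≤ S.card)
    (hcov : ∀ x ∈ S, ∀ y ∈ S, x ≠ y → ∃ c ∈ A, y ∈ N c x) :
    ∃ l : ℕ, ∃ f : Fin (2 ^ l) → V, (∀ j, f j ∈ S) ∧
      ((l : ℝ) + 1) * S.card / 32 ≤ ∑ v ∈ S, ((A.filter (fun k => ∃ j,
        (f j, v, k) ∈ (EE N A S).filter (fun p => lv N A S p.2.2 p.2.1 = l))).card : ℝ) := by
  classical
  obtain ⟨l, hl⟩ := exists_level N A S hsym hS hcov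
  refine ⟨l, ?_⟩
  set El := (EE N A S).filter (fun p => lv N A S p.2.2 p.2.1 = l) with hEl
  set Om := Fintype.piFinset (fun _ : Fin (2 ^ l) => S) with hOm
  have hn2 : (2 : ℝ) ≤ S.card := by exact_mod_cast hS
  have hn : (0 : ℝ) < S.card := by linarith
  have hOmcard : (Om.card : ℝ) = (S.card : ℝ) ^ (2 ^ l) := by
    rw [hOm, Fintype.card_piFinset]
    simp
  -- the fibres
  have hB : ∀ v ∈ S, ∀ k ∈ A,
      (S.card : ℝ) ^ (2 ^ l) * ((2 : ℝ) ^ l * ((S.filter (fun x => (x, v, k) ∈ El)).card : ℝ) /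
        (2 * S.card)) ≤ ((Om.filter (fun f => ∃ j, (f j, v, k) ∈ El)).card : ℝ) := by
    intro v hv k hk
    have h1 := hits_ge S (S.filter (fun x => (x, v, k) ∈ El)) (filter_subset _ _) (2 ^ l)
      (by omega) (by
        rcases (S.filter (fun x => (x, v, k) ∈ El)).eq_empty_or_nonempty with h0 | ⟨x, hx⟩
        · rw [h0]; simp
        · obtain ⟨hxS, hxE⟩ := mem_filter.1 hx
          rw [hEl, mem_filter] at hxE
          obtain ⟨hxEE, hlv⟩ := hxE
          unfold EE at hxEE
          obtain ⟨-, hmin, -⟩ := mem_filter.1 hxEE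
          have hp := deg_pos N A S hsym hxS hmin
          have h2 := (lv_spec N A S hp).1
          simp only at hlv h2
          rw [hlv] at h2
          have h3 : (S.filter (fun x => (x, v, k) ∈ El)).card ≤ deg N A S k v := by
            unfold deg
            apply card_le_card
            intro y hy
            obtain ⟨hyS, hyE⟩ := mem_filter.1 hy
            rw [hEl, mem_filter] at hyE
            unfold EE at hyE
            obtain ⟨-, hmin', -⟩ := mem_filter.1 hyE.1
            refine mem_filter.2 ⟨hyS, ?_⟩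
            rw [cols_comm N A hsym]
            exact hmin'
          exact (Nat.mul_le_mul_left _ h3).trans h2)
    have e : Om.filter (fun f => ∃ j, (f j, v, k) ∈ El) =
        Om.filter (fun f => ∃ j, f j ∈ S.filter (fun x => (x, v, k) ∈ El)) := by
      apply filter_congr
      intro f hf
      rw [hOm, Fintype.mem_piFinset] at hf
      simp only [mem_filter, hf, true_and]
    rw [e]
    push_cast at h1
    exact h1
  -- double counting
  have hsum : ∑ f ∈ Om, ∑ v ∈ S, ((A.filter (fun k => ∃ j, (f j, v, k) ∈ El)).card : ℝ) =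
      ∑ v ∈ S, ∑ k ∈ A, ((Om.filter (fun f => ∃ j, (f j, v, k) ∈ El)).card : ℝ) := by
    rw [sum_comm]
    apply sum_congr rfl
    intro v _
    have e1 : ∀ f ∈ Om, ((A.filter (fun k => ∃ j, (f j, v, k) ∈ El)).card : ℝ) =
        ∑ k ∈ A, if (∃ j, (f j, v, k) ∈ El) then (1 : ℝ) else 0 := by
      intro f _
      rw [card_filter]
      push_cast
      rfl
    have e2 : ∀ k ∈ A, ((Om.filter (fun f => ∃ j, (f j, v, k) ∈ El)).card : ℝ) =
        ∑ f ∈ Om, if (∃ j, (f j, v, k) ∈ El) then (1 : ℝ) else 0 := by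
      intro k _
      rw [card_filter]
      push_cast
      rfl
    rw [sum_congr rfl e1, sum_congr rfl e2, sum_comm]
  have hEsum : ∑ v ∈ S, ∑ k ∈ A, ((S.filter (fun x => (x, v, k) ∈ El)).card : ℝ) =
      (El.card : ℝ) := by
    have e1 : ∀ v ∈ S, ∀ k ∈ A, ((S.filter (fun x => (x, v, k) ∈ El)).card : ℝ) =
        ((El.filter (fun p => p.2 = (v, k))).card : ℝ) := by
      intro v _ k _
      congr 1
      apply card_bij (fun x _ => (x, v, k))
      · intro x hx
        exact mem_filter.2 ⟨(mem_filter.1 hx).2, rfl⟩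
      · intro x _ y _ h
        exact (Prod.mk.injEq _ _ _ _ ▸ h).1
      · rintro ⟨x, w⟩ hp
        obtain ⟨hp1, hp2⟩ := mem_filter.1 hp
        simp only at hp2
        subst hp2
        refine ⟨x, mem_filter.2 ⟨?_, hp1⟩, rfl⟩
        rw [hEl, mem_filter] at hp1
        unfold EE at hp1
        have := (mem_filter.1 hp1.1).1
        exact (mem_product.1 this).1
    rw [sum_congr rfl (fun v hv => sum_congr rfl (e1 v hv)), ← sum_product' (f := fun v k =>
      ((El.filter (fun p => p.2 = (v, k))).card : ℝ))]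
    rw [← Nat.cast_sum]
    congr 1
    symm
    apply card_eq_sum_card_fiberwise
    intro p hp
    rw [mem_coe, hEl, mem_filter] at hp
    unfold EE at hp
    have := (mem_filter.1 hp.1).1
    exact (mem_product.1 this).2
  have htot : (S.card : ℝ) ^ (2 ^ l) * (((l : ℝ) + 1) * S.card / 32) ≤
      ∑ f ∈ Om, ∑ v ∈ S, ((A.filter (fun k => ∃ j, (f j, v, k) ∈ El)).card : ℝ) := by
    rw [hsum]
    have h1 : ∑ v ∈ S, ∑ k ∈ A, (S.card : ℝ) ^ (2 ^ l) * ((2 : ℝ) ^ l *
        ((S.filter (fun x => (x, v, k) ∈ El)).card : ℝ) / (2 * S.card)) ≤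
        ∑ v ∈ S, ∑ k ∈ A, ((Om.filter (fun f => ∃ j, (f j, v, k) ∈ El)).card : ℝ) :=
      sum_le_sum (fun v hv => sum_le_sum (fun k hk => hB v hv k hk))
    refine le_trans ?_ h1
    have h2 : ∑ v ∈ S, ∑ k ∈ A, (S.card : ℝ) ^ (2 ^ l) * ((2 : ℝ) ^ l *
        ((S.filter (fun x => (x, v, k) ∈ El)).card : ℝ) / (2 * S.card)) =
        (S.card : ℝ) ^ (2 ^ l) * ((2 : ℝ) ^ l / (2 * S.card) * (El.card : ℝ)) := by
      rw [← hEsum, mul_sum, mul_sum]
      apply sum_congr rfl
      intro v _
      rw [mul_sum, mul_sum]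
      apply sum_congr rfl
      intro k _
      ring
    rw [h2]
    apply mul_le_mul_of_nonneg_left _ (by positivity)
    have h3 : (2 : ℝ) ^ l / (2 * S.card) * (((l : ℝ) + 1) / 2 ^ l *
        ((S.card : ℝ) * ((S.card : ℝ) - 1) / 8)) ≤
        (2 : ℝ) ^ l / (2 * S.card) * (El.card : ℝ) :=
      mul_le_mul_of_nonneg_left hl (by positivity)
    refine le_trans ?_ h3
    have h4 : (2 : ℝ) ^ l / (2 * S.card) * (((l : ℝ) + 1) / 2 ^ l *
        ((S.card : ℝ) * ((S.card : ℝ) - 1) / 8)) = ((l : ℝ) + 1) * ((S.card : ℝ) - 1) / 16 := by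
      have : (2 : ℝ) ^ l ≠ 0 := by positivity
      field_simp
      ring
    rw [h4]
    have h5 : (S.card : ℝ) / 2 ≤ (S.card : ℝ) - 1 := by linarith
    have h6 : (0 : ℝ) ≤ (l : ℝ) + 1 := by positivity
    nlinarith [mul_le_mul_of_nonneg_left h5 h6]
  by_contra hcon
  push Not at hcon
  have hlt : ∑ f ∈ Om, ∑ v ∈ S, ((A.filter (fun k => ∃ j, (f j, v, k) ∈ El)).card : ℝ) <
      ∑ f ∈ Om, (((l : ℝ) + 1) * S.card / 32) := by
    apply sum_lt_sum_of_nonempty
    · rw [← card_pos]
      have : (0 : ℝ) < Om.card := by rw [hOmcard]; positivity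
      exact_mod_cast this
    · intro f hf
      apply hcon f
      rw [hOm, Fintype.mem_piFinset] at hf
      exact hf
  rw [sum_const, nsmul_eq_mul, hOmcard] at hlt
  linarith

end

end Pool.Agent.Hhelper19.VC
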