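import Mathlib
import Pool.Agent.Hhelper19.VC.Sample

/-! The key step and the exponential bound for triangle-free covers of bounded VC-dimension. -/

set_option autoImplicit false

namespace Pool.Agent.Hhelper19.VC

open Finset

/-- the exponent -/
def expo (d : ℕ) : ℕ := 64 * (2 * (2 ^ (d + 1) - 1) + 7) + 1

lemma expo_le (d : ℕ) : expo d ≤ 577 * 2 ^ d := by
  unfold expo
  have h1 : 1 ≤ 2 ^ d := Nat.one_le_two_pow
  rw [pow_succ]
  omega

section
variable {V : Type} [DecidableEq V] {m : ℕ}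
variable (N : Fin m → V → Finset V) (A : Finset (Fin m)) (S : Finset V)
  (hsym : ∀ c x y, y ∈ N c x → x ∈ N c y)
  (htri : ∀ c, ∀ x ∈ S, ∀ y ∈ S, ∀ z ∈ S, y ∈ N c x → z ∈ N c x → z ∉ N c y)
  (F : Finset (Finset V)) (d : ℕ) (hd : F.vcDim ≤ d) (hF : ∀ c, ∀ x ∈ S, N c x ∈ F)

include hsym htri hd hF in
/-- Key step: a large part of `S` which is free of a nonempty set of colours. -/
lemma key_step (hS : 2 ≤ S.card)
    (hcov : ∀ x ∈ S, ∀ y ∈ S, x ≠ y → ∃ c ∈ A, y ∈ N c x) :
    ∃ S' ⊆ S, ∃ K ⊆ A, K.Nonempty ∧ (∀ c ∈ K, ∀ x ∈ S', ∀ y ∈ S', y ∉ N c x) ∧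
      S.card ≤ 2 ^ (expo d * K.card) * S'.card := by
  classical
  have hirr : ∀ c, ∀ x ∈ S, x ∉ N c x := fun c x hx h => htri c x hx x hx x hx h h h
  obtain ⟨l, f, hfS, hsum⟩ := exists_sample N A S hsym hS hcov
  have hnpos : 0 < S.card := by omega
  -- recorded sets
  let ι : Type := {p : Fin (2 ^ l) × Fin m // p.2 ∈ A ∧
    S.card < deg N A S p.2 (f p.1) * 2 ^ (l + 1)}
  let B : ι → Finset V := fun p => N p.1.2 (f p.1.1)
  have hB : ∀ p : ι, B p ∈ F := fun p => hF _ _ (hfS _)
  have hcardι : Fintype.card ι ≤ 2 ^ (2 * l + 1) := by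
    have h1 : Fintype.card ι = ((Finset.univ : Finset (Fin (2 ^ l) × Fin m)).filter
        (fun p => p.2 ∈ A ∧ S.card < deg N A S p.2 (f p.1) * 2 ^ (l + 1))).card := by
      rw [Fintype.card_subtype]
    have h2 : ((Finset.univ : Finset (Fin (2 ^ l) × Fin m)).filter
        (fun p => p.2 ∈ A ∧ S.card < deg N A S p.2 (f p.1) * 2 ^ (l + 1))).card =
        ∑ j : Fin (2 ^ l), (A.filter (fun k => S.card < deg N A S k (f j) * 2 ^ (l + 1))).card := by
      rw [card_eq_sum_card_fiberwise (f := fun p : Fin (2 ^ l) × Fin m => p.1)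
        (t := (Finset.univ : Finset (Fin (2 ^ l)))) (fun _ _ => by simp)]
      apply sum_congr rfl
      intro j _
      apply card_bij (fun p _ => p.2)
      · rintro ⟨a, k⟩ hp
        simp only [mem_filter, mem_univ, true_and] at hp ⊢
        obtain ⟨⟨h3, h4⟩, rfl⟩ := hp
        exact ⟨h3, h4⟩
      · rintro ⟨a, k⟩ hp ⟨a', k'⟩ hp' h
        simp only [mem_filter, mem_univ, true_and] at hp hp' h
        rw [hp.2, hp'.2, h]
      · intro k hk
        simp only [mem_filter] at hk
        refine ⟨(j, k), ?_, rfl⟩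
        simp only [mem_filter, mem_univ, true_and, and_true]
        exact hk
    rw [h1, h2]
    calc ∑ j : Fin (2 ^ l), (A.filter (fun k => S.card < deg N A S k (f j) * 2 ^ (l + 1))).card
        ≤ ∑ _j : Fin (2 ^ l), 2 ^ (l + 1) :=
          sum_le_sum (fun j _ => card_big_le N A S hirr (hfS j) l)
      _ = 2 ^ (2 * l + 1) := by
        rw [sum_const, card_univ, Fintype.card_fin, smul_eq_mul, ← pow_add]
        congr 1
        ring
  set D := 2 ^ (d + 1) - 1 with hD
  set Cells := S.image (pat B) with hCells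
  have hcells : (Cells.card : ℝ) ≤ 2 ^ ((2 * l + 2) * D) := by
    have h1 := cells_le F d hd B hB S
    have h2 : (Fintype.card ι + 1) ^ D ≤ 2 ^ ((2 * l + 2) * D) := by
      rw [pow_mul]
      apply Nat.pow_le_pow_left
      have h3 : 2 ^ (2 * l + 2) = 2 * 2 ^ (2 * l + 1) := by rw [pow_succ]; ring
      have h4 : 1 ≤ 2 ^ (2 * l + 1) := Nat.one_le_two_pow
      omega
    have h3 : Cells.card ≤ 2 ^ ((2 * l + 2) * D) := h1.trans h2
    exact_mod_cast h3
  -- the killed colours of a pattern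
  let kap : Finset ι → Finset (Fin m) := fun P => P.image (fun p => p.1.2)
  have hkapA : ∀ P, kap P ⊆ A := by
    intro P c hc
    obtain ⟨p, -, rfl⟩ := mem_image.1 hc
    exact p.2.1
  have hkap : ∀ v ∈ S, A.filter (fun k => ∃ j,
      (f j, v, k) ∈ (EE N A S).filter (fun p => lv N A S p.2.2 p.2.1 = l)) ⊆ kap (pat B v) := by
    intro v hv k hk
    obtain ⟨hkA, j, hj⟩ := mem_filter.1 hk
    obtain ⟨hjE, hjl⟩ := mem_filter.1 hj
    unfold EE at hjE
    obtain ⟨-, hmin, hdeg⟩ := mem_filter.1 hjE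
    simp only at hmin hdeg hjl
    have hp := deg_pos N A S hsym (hfS j) hmin
    have h2 := (lv_spec N A S hp).2
    rw [hjl] at h2
    have h3 : S.card < deg N A S k (f j) * 2 ^ (l + 1) :=
      lt_of_lt_of_le h2 (Nat.mul_le_mul_right _ hdeg)
    refine mem_image.2 ⟨⟨(j, k), hkA, h3⟩, ?_, rfl⟩
    rw [mem_pat]
    exact (min_mem N A hmin).2
  have hkill : ∀ P ∈ Cells, ∀ c ∈ kap P, ∀ x ∈ S.filter (fun v => pat B v = P),
      ∀ y ∈ S.filter (fun v => pat B v = P), y ∉ N c x := by
    intro P _ c hc x hx y hy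
    obtain ⟨p, hp, rfl⟩ := mem_image.1 hc
    obtain ⟨hxS, hxP⟩ := mem_filter.1 hx
    obtain ⟨hyS, hyP⟩ := mem_filter.1 hy
    have h1 : x ∈ B p := by rw [← mem_pat, hxP]; exact hp
    have h2 : y ∈ B p := by rw [← mem_pat, hyP]; exact hp
    exact htri _ (f p.1.1) (hfS _) x hxS y hyS h1 h2
  by_contra hcon
  push Not at hcon
  have hsmall : ∀ P ∈ Cells, (kap P).Nonempty →
      2 ^ (expo d * (kap P).card) * (S.filter (fun v => pat B v = P)).card < S.card := by
    intro P hP hne
    exact hcon _ (filter_subset _ _) (kap P) (hkapA P) hne (hkill P hP)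
  set n : ℝ := (S.card : ℝ) with hn
  have hn0 : 0 < n := by rw [hn]; exact_mod_cast hnpos
  -- the bound of one cell
  have hcell : ∀ P ∈ Cells, ((S.filter (fun v => pat B v = P)).card : ℝ) * (kap P).card ≤
      (S.filter (fun v => pat B v = P)).card * (((l : ℝ) + 1) / 64) +
        n / (2 ^ ((2 * l + 2) * D) * 128 ^ (l + 1)) := by
    intro P hP
    set s : ℕ := (S.filter (fun v => pat B v = P)).card with hs
    set k : ℕ := (kap P).card with hk
    have hs0 : (0 : ℝ) ≤ s := by positivity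
    have hpos2 : 0 ≤ n / (2 ^ ((2 * l + 2) * D) * 128 ^ (l + 1)) := by positivity
    rcases le_or_gt ((k : ℝ)) (((l : ℝ) + 1) / 64) with h | h
    · have := mul_le_mul_of_nonneg_left h hs0
      linarith
    · have hk1 : 0 < k := by
        have h1 : (0 : ℝ) < k := lt_of_le_of_lt (by positivity) h
        exact_mod_cast h1
      have hne : (kap P).Nonempty := card_pos.1 hk1
      have h1 := hsmall P hP hne
      rw [← hs, ← hk] at h1
      have h2 : (l : ℝ) + 1 < 64 * k := by
        rw [div_lt_iff₀ (by norm_num)] at h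
        linarith
      have h2' : l + 1 ≤ 64 * k := by
        have : l + 1 < 64 * k := by exact_mod_cast h2
        omega
      -- 2 ^ (expo d * k) ≥ k * 2 ^ ((2l+2) D) * 128 ^ (l+1)
      have h3 : k * (2 ^ ((2 * l + 2) * D) * 128 ^ (l + 1)) ≤ 2 ^ (expo d * k) := by
        have e1 : (128 : ℕ) ^ (l + 1) = 2 ^ (7 * (l + 1)) := by
          rw [pow_mul]; norm_num
        have e2 : k ≤ 2 ^ k := Nat.lt_two_pow_self.le
        calc k * (2 ^ ((2 * l + 2) * D) * 128 ^ (l + 1))
            ≤ 2 ^ k * (2 ^ ((2 * l + 2) * D) * 128 ^ (l + 1)) := Nat.mul_le_mul_right _ e2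
          _ = 2 ^ (k + ((2 * l + 2) * D + 7 * (l + 1))) := by
            rw [e1, ← pow_add, ← pow_add]
          _ ≤ 2 ^ (expo d * k) := by
            apply Nat.pow_le_pow_right (by norm_num)
            unfold expo
            rw [← hD]
            have e3 : (2 * l + 2) * D + 7 * (l + 1) = (l + 1) * (2 * D + 7) := by ring
            rw [e3]
            have e4 : (l + 1) * (2 * D + 7) ≤ 64 * k * (2 * D + 7) := Nat.mul_le_mul_right _ h2'
            have e5 : (64 * (2 * D + 7) + 1) * k = 64 * k * (2 * D + 7) + k := by ring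
            omega
      have h4 : (s : ℝ) * k * (2 ^ ((2 * l + 2) * D) * 128 ^ (l + 1)) ≤ n := by
        have h5 : s * (k * (2 ^ ((2 * l + 2) * D) * 128 ^ (l + 1))) ≤ S.card := by
          calc s * (k * (2 ^ ((2 * l + 2) * D) * 128 ^ (l + 1))) ≤ s * 2 ^ (expo d * k) :=
              Nat.mul_le_mul_left _ h3
            _ = 2 ^ (expo d * k) * s := by ring
            _ ≤ S.card := h1.le
        have h6 : ((s * (k * (2 ^ ((2 * l + 2) * D) * 128 ^ (l + 1))) : ℕ) : ℝ) ≤ (S.card : ℝ) := by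
          exact_mod_cast h5
        push_cast at h6
        rw [hn]
        linarith
      have h5 : (s : ℝ) * k ≤ n / (2 ^ ((2 * l + 2) * D) * 128 ^ (l + 1)) := by
        rw [le_div_iff₀ (by positivity)]
        exact h4
      have h6 : (0 : ℝ) ≤ (s : ℝ) * (((l : ℝ) + 1) / 64) := by positivity
      linarith
  -- total
  have htot1 : ∑ v ∈ S, ((A.filter (fun k => ∃ j,
      (f j, v, k) ∈ (EE N A S).filter (fun p => lv N A S p.2.2 p.2.1 = l))).card : ℝ) ≤
      ∑ v ∈ S, ((kap (pat B v)).card : ℝ) := by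
    apply sum_le_sum
    intro v hv
    exact_mod_cast card_le_card (hkap v hv)
  have htot2 : ∑ v ∈ S, ((kap (pat B v)).card : ℝ) =
      ∑ P ∈ Cells, ((S.filter (fun v => pat B v = P)).card : ℝ) * (kap P).card := by
    rw [← sum_fiberwise_of_maps_to (s := S) (t := Cells) (g := pat B)
      (fun v hv => mem_image_of_mem _ hv)]
    apply sum_congr rfl
    intro P _
    rw [sum_congr rfl (g := fun _ => ((kap P).card : ℝ)), sum_const, nsmul_eq_mul]
    intro v hv
    rw [(mem_filter.1 hv).2]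
  have htot3 : ∑ P ∈ Cells, ((S.filter (fun v => pat B v = P)).card : ℝ) = n := by
    rw [hn, ← Nat.cast_sum]
    congr 1
    symm
    apply card_eq_sum_card_fiberwise
    intro v hv
    exact mem_coe.2 (mem_image_of_mem _ hv)
  have htot4 : ∑ P ∈ Cells, ((S.filter (fun v => pat B v = P)).card : ℝ) * (kap P).card ≤
      n * (((l : ℝ) + 1) / 64) + n / 128 ^ (l + 1) := by
    refine (sum_le_sum hcell).trans ?_
    rw [sum_add_distrib, ← sum_mul, htot3, sum_const, nsmul_eq_mul]
    have h1 : (Cells.card : ℝ) * (n / (2 ^ ((2 * l + 2) * D) * 128 ^ (l + 1))) ≤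
        2 ^ ((2 * l + 2) * D) * (n / (2 ^ ((2 * l + 2) * D) * 128 ^ (l + 1))) :=
      mul_le_mul_of_nonneg_right hcells (by positivity)
    have h2 : (2 : ℝ) ^ ((2 * l + 2) * D) * (n / (2 ^ ((2 * l + 2) * D) * 128 ^ (l + 1))) =
        n / 128 ^ (l + 1) := by
      field_simp
    linarith
  have hfin : n / 128 ^ (l + 1) < n * (((l : ℝ) + 1) / 64) := by
    have h1 : (1 : ℝ) ≤ 128 ^ l := one_le_pow₀ (by norm_num)
    have h2 : (128 : ℝ) ≤ 128 ^ (l + 1) := by
      rw [pow_succ]; linarith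
    have h3 : n / 128 ^ (l + 1) ≤ n / 128 := by
      apply div_le_div_of_nonneg_left hn0.le (by norm_num) h2
    have h4 : n / 128 < n * (1 / 64) := by linarith
    have h5 : n * (1 / 64) ≤ n * (((l : ℝ) + 1) / 64) := by
      apply mul_le_mul_of_nonneg_left _ hn0.le
      have : (0 : ℝ) ≤ l := by positivity
      linarith
    linarith
  have : ((l : ℝ) + 1) * n / 32 ≤ n * (((l : ℝ) + 1) / 64) + n / 128 ^ (l + 1) :=
    hsum.trans (htot1.trans (htot2.le.trans htot4))
  linarith

end

/-- A complete graph which is covered by `|A|` triangle-free graphs whose neighbourhoods lie in a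
family of VC-dimension at most `d` has at most `2 ^ (expo d * |A|)` vertices. -/
theorem ramsey_vc {V : Type} [DecidableEq V] {m : ℕ} (N : Fin m → V → Finset V)
    (hsym : ∀ c x y, y ∈ N c x → x ∈ N c y) (F : Finset (Finset V)) (d : ℕ) (hd : F.vcDim ≤ d) :
    ∀ (k : ℕ) (A : Finset (Fin m)) (S : Finset V), A.card = k →
      (∀ c, ∀ x ∈ S, ∀ y ∈ S, ∀ z ∈ S, y ∈ N c x → z ∈ N c x → z ∉ N c y) →
      (∀ c, ∀ x ∈ S, N c x ∈ F) →
      (∀ x ∈ S, ∀ y ∈ S, x ≠ y → ∃ c ∈ A, y ∈ N c x) →
      S.card ≤ 2 ^ (expo d * k) := by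
  intro k
  induction k using Nat.strong_induction_on with
  | _ k ih =>
    intro A S hA htri hF hcov
    rcases Nat.lt_or_ge S.card 2 with h | h
    · have : 1 ≤ 2 ^ (expo d * k) := Nat.one_le_two_pow
      omega
    · obtain ⟨S', hS', K, hK, hKne, hkill, hcard⟩ := key_step N A S hsym htri F d hd hF h hcov
      have hKcard : K.card ≤ k := by rw [← hA]; exact card_le_card hK
      have hKpos : 0 < K.card := card_pos.2 hKne
      have hA' : (A \ K).card = k - K.card := by rw [card_sdiff_of_subset hK, hA]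
      have h1 := ih (k - K.card) (by omega) (A \ K) S' hA'
        (fun c x hx y hy z hz => htri c x (hS' hx) y (hS' hy) z (hS' hz))
        (fun c x hx => hF c x (hS' hx)) (by
          intro x hx y hy hxy
          obtain ⟨c, hc, hcy⟩ := hcov x (hS' hx) y (hS' hy) hxy
          refine ⟨c, mem_sdiff.2 ⟨hc, ?_⟩, hcy⟩
          intro hcK
          exact hkill c hcK x hx y hy hcy)
      calc S.card ≤ 2 ^ (expo d * K.card) * S'.card := hcard
        _ ≤ 2 ^ (expo d * K.card) * 2 ^ (expo d * (k - K.card)) := Nat.mul_le_mul_left _ h1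
        _ = 2 ^ (expo d * k) := by
          rw [← pow_add, ← Nat.mul_add]
          congr 2
          omega

end Pool.Agent.Hhelper19.VC
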