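import Mathlib
import Pool.Agent.Hhelper19.VC.Key
import Pool.Agent.Hhelper55.TripleCover

/-! Definitions for covers of the triples, and the lower bound. -/

set_option autoImplicit false

namespace Pool.Agent.Hhelper19.VC

open Finset

/-- The neighbourhood of the pair `u, v` in the 3-graph `H`: all `w` with `{u, v, w} ∈ H`. -/
def nbr {n : ℕ} (H : Finset (Finset (Fin n))) (u v : Fin n) : Finset (Fin n) :=
  Finset.univ.filter (fun w => ({u, v, w} : Finset (Fin n)) ∈ H)

/-- The family of all the neighbourhoods of pairs in the 3-graphs `H 0, ..., H (m-1)`. -/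
def nbrFamily {n m : ℕ} (H : Fin m → Finset (Finset (Fin n))) : Finset (Finset (Fin n)) :=
  ((Finset.univ : Finset (Fin m × Fin n × Fin n)).filter (fun p => p.2.1 ≠ p.2.2)).image
    (fun p => nbr (H p.1) p.2.1 p.2.2)

/-- `H 0, ..., H (m-1)` are 3-graphs on `Fin n`, none of which contains the complete 3-graph on
four vertices, and every triple is an edge of one of them. -/
def IsCover {n m : ℕ} (H : Fin m → Finset (Finset (Fin n))) : Prop :=
  (∀ i, ∀ e ∈ H i, e.card = 3) ∧
  (∀ i, ¬ ∃ T : Finset (Fin n), T.card = 4 ∧
    ∀ e : Finset (Fin n), e ⊆ T → e.card = 3 → e ∈ H i) ∧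
  (∀ e : Finset (Fin n), e.card = 3 → ∃ i, e ∈ H i)

/-- The triples of an `n`-set have a cover by `m` such 3-graphs for which the family of all the
neighbourhoods of pairs has VC-dimension at most `d`. -/
def CoversVC (d n m : ℕ) : Prop :=
  ∃ H : Fin m → Finset (Finset (Fin n)), IsCover H ∧ (nbrFamily H).vcDim ≤ d

/-- The least number of 3-graphs in such a cover. -/
noncomputable def f3VC (d n : ℕ) : ℕ := sInf {m | CoversVC d n m}

lemma mem_nbr {n : ℕ} (H : Finset (Finset (Fin n))) (u v w : Fin n) :
    w ∈ nbr H u v ↔ ({u, v, w} : Finset (Fin n)) ∈ H := by simp [nbr]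

lemma nbr_mem_family {n m : ℕ} (H : Fin m → Finset (Finset (Fin n))) (i : Fin m) {u v : Fin n}
    (h : u ≠ v) : nbr (H i) u v ∈ nbrFamily H := by
  unfold nbrFamily
  rw [mem_image]
  exact ⟨(i, u, v), mem_filter.2 ⟨mem_univ _, h⟩, rfl⟩

/-- The Ramsey step: a cover with bounded VC-dimension has few vertices. -/
lemma lower_aux {d n m : ℕ} (h : CoversVC d n m) :
    n < Pool.Agent.Hhelper55.TripleCover.need (2 ^ m) (2 ^ (expo d * m) + 1) 0 := by
  classical
  by_contra hcon
  push Not at hcon
  obtain ⟨H, ⟨hcard3, hK4, hcov⟩, hvc⟩ := h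
  set NN := 2 ^ (expo d * m) + 1 with hNN
  -- patterns
  have hcardP : Fintype.card (Finset (Fin m)) = 2 ^ m := by
    rw [Fintype.card_finset, Fintype.card_fin]
  let enc : Finset (Fin m) ≃ Fin (2 ^ m) := Fintype.equivFinOfCardEq hcardP
  let col : Finset (Fin n) → Fin (2 ^ m) := fun e => enc (Finset.univ.filter (fun i => e ∈ H i))
  have hcol : ∀ e e' : Finset (Fin n), col e = col e' → ∀ i, e ∈ H i ↔ e' ∈ H i := by
    intro e e' hee i
    have h1 := enc.injective hee
    have h2 : i ∈ Finset.univ.filter (fun i => e ∈ H i) ↔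
        i ∈ Finset.univ.filter (fun i => e' ∈ H i) := by rw [h1]
    simpa using h2
  have h2m : 0 < 2 ^ m := Nat.two_pow_pos m
  obtain ⟨v, S, φ, h1, h2, h3, h4, h5⟩ :=
    Pool.Agent.Hhelper55.TripleCover.greedy h2m hcon col NN le_rfl
  have hS : S.Nonempty := by
    rw [← Finset.card_pos]
    refine lt_of_lt_of_le ?_ h5
    unfold Pool.Agent.Hhelper55.TripleCover.need
    exact Nat.mul_pos (by omega) (Nat.pow_pos h2m)
  obtain ⟨w, hw⟩ := hS
  set T : Finset (Fin n) := (Finset.range NN).image v with hT
  have hinj : ∀ i < NN, ∀ j < NN, v i = v j → i = j := by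
    intro i hi j hj hij
    rcases lt_trichotomy i j with h | h | h
    · exact absurd hij (h2 i j h hj)
    · exact h
    · exact absurd hij.symm (h2 j i h hi)
  have hTcard : T.card = NN := by
    rw [hT, card_image_of_injOn, card_range]
    intro i hi j hj hij
    exact hinj i (by simpa using hi) j (by simpa using hj) hij
  have hwT : ∀ x ∈ T, x ≠ w := by
    intro x hx hxw
    obtain ⟨i, hi, rfl⟩ := mem_image.1 hx
    exact h1 i (mem_range.1 hi) (hxw ▸ hw)
  let N : Fin m → Fin n → Finset (Fin n) := fun c x => nbr (H c) x w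
  have hN : ∀ c x y, y ∈ N c x ↔ ({x, w, y} : Finset (Fin n)) ∈ H c := fun c x y => mem_nbr _ _ _ _
  have hsym : ∀ c x y, y ∈ N c x → x ∈ N c y := by
    intro c x y hy
    rw [hN] at hy ⊢
    have : ({y, w, x} : Finset (Fin n)) = {x, w, y} := by
      ext t; simp only [mem_insert, mem_singleton]; tauto
    rw [this]
    exact hy
  -- homogeneity
  have hhom : ∀ c, ∀ i j k, i < j → j < k → k < NN →
      (({v i, v j, v k} : Finset (Fin n)) ∈ H c ↔ ({v i, w, v j} : Finset (Fin n)) ∈ H c) := by
    intro c i j k hij hjk hk
    have e1 := h4 i j k hij hjk hk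
    have e2 := h3 i j hij (by omega) w hw
    have e3 := hcol _ _ (e1.trans e2.symm) c
    rw [e3]
    have : ({v i, v j, w} : Finset (Fin n)) = {v i, w, v j} := by
      ext t; simp only [mem_insert, mem_singleton]; tauto
    rw [this]
  have htri0 : ∀ c, ∀ i j k, i < j → j < k → k < NN →
      v j ∈ N c (v i) → v k ∈ N c (v i) → v k ∉ N c (v j) := by
    intro c i j k hij hjk hk hji hki hkj
    rw [hN] at hji hki hkj
    have e1 := (hhom c i j k hij hjk hk).2 hji
    have nab : v i ≠ v j := h2 _ _ hij (by omega)
    have nbc : v j ≠ v k := h2 _ _ hjk hk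
    have nac : v i ≠ v k := h2 _ _ (hij.trans hjk) hk
    have naw : v i ≠ w := fun h => h1 i (by omega) (h ▸ hw)
    have nbw : v j ≠ w := fun h => h1 j (by omega) (h ▸ hw)
    have ncw : v k ≠ w := fun h => h1 k hk (h ▸ hw)
    apply hK4 c
    refine ⟨{v i, v j, v k, w}, ?_, ?_⟩
    · rw [Finset.card_insert_of_notMem, Finset.card_insert_of_notMem,
        Finset.card_insert_of_notMem, Finset.card_singleton]
      · simpa using ncw
      · simp [nbc, nbw]
      · simp [nab, nac, naw]
    · intro e he hecard
      have hcases : e = {v i, v j, v k} ∨ e = {v i, w, v j} ∨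
          e = {v i, w, v k} ∨ e = {v j, w, v k} := by
        -- the missing element
        have hex : ∃ t ∈ ({v i, v j, v k, w} : Finset (Fin n)), t ∉ e := by
          by_contra hcon'
          push Not at hcon'
          have h6 : ({v i, v j, v k, w} : Finset (Fin n)) ⊆ e := hcon'
          have h7 := card_le_card h6
          rw [Finset.card_insert_of_notMem (by simp [nab, nac, naw]),
            Finset.card_insert_of_notMem (by simp [nbc, nbw]),
            Finset.card_insert_of_notMem (by simpa using ncw), Finset.card_singleton] at h7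
          omega
        obtain ⟨t, ht, hte⟩ := hex
        have hsub : ∀ s ∈ e, s = v i ∨ s = v j ∨ s = v k ∨ s = w := by
          intro s hs
          have := he hs
          simpa only [mem_insert, mem_singleton] using this
        have key : ∀ a b c : Fin n, (∀ s ∈ e, s = a ∨ s = b ∨ s = c) → e = {a, b, c} := by
          intro a b c hs
          apply Finset.eq_of_subset_of_card_le
          · intro s hse
            have := hs s hse
            simpa only [mem_insert, mem_singleton] using this
          · rw [hecard]
            exact Finset.card_le_three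
        simp only [mem_insert, mem_singleton] at ht
        rcases ht with rfl | rfl | rfl | rfl
        · right; right; right
          apply key
          intro s hs
          rcases hsub s hs with h | h | h | h
          · exact absurd (h ▸ hs) hte
          · exact Or.inl h
          · exact Or.inr (Or.inr h)
          · exact Or.inr (Or.inl h)
        · right; right; left
          apply key
          intro s hs
          rcases hsub s hs with h | h | h | h
          · exact Or.inl h
          · exact absurd (h ▸ hs) hte
          · exact Or.inr (Or.inr h)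
          · exact Or.inr (Or.inl h)
        · right; left
          apply key
          intro s hs
          rcases hsub s hs with h | h | h | h
          · exact Or.inl h
          · exact Or.inr (Or.inr h)
          · exact absurd (h ▸ hs) hte
          · exact Or.inr (Or.inl h)
        · left
          apply key
          intro s hs
          rcases hsub s hs with h | h | h | h
          · exact Or.inl h
          · exact Or.inr (Or.inl h)
          · exact Or.inr (Or.inr h)
          · exact absurd (h ▸ hs) hte
      rcases hcases with rfl | rfl | rfl | rfl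
      · exact e1
      · exact hji
      · exact hki
      · exact hkj
  have hirr0 : ∀ c, ∀ x, x ∉ N c x := by
    intro c x hx
    rw [hN] at hx
    have h6 := hcard3 c _ hx
    have h7 : ({x, w, x} : Finset (Fin n)) = {w, x} := by
      ext t; simp only [mem_insert, mem_singleton]; tauto
    rw [h7] at h6
    have := Finset.card_le_two (a := w) (b := x)
    omega
  have htri : ∀ c, ∀ x ∈ T, ∀ y ∈ T, ∀ z ∈ T, y ∈ N c x → z ∈ N c x → z ∉ N c y := by
    intro c x hx y hy z hz hyx hzx hzy
    obtain ⟨i, hi, rfl⟩ := mem_image.1 hx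
    obtain ⟨j, hj, rfl⟩ := mem_image.1 hy
    obtain ⟨k, hk, rfl⟩ := mem_image.1 hz
    rw [mem_range] at hi hj hk
    have hij : i ≠ j := by rintro rfl; exact hirr0 c _ hyx
    have hik : i ≠ k := by rintro rfl; exact hirr0 c _ hzx
    have hjk : j ≠ k := by rintro rfl; exact hirr0 c _ hzy
    have hxy := hsym c _ _ hyx
    have hxz := hsym c _ _ hzx
    have hyz := hsym c _ _ hzy
    rcases lt_or_gt_of_ne hij with a | a <;> rcases lt_or_gt_of_ne hik with b | b <;>
      rcases lt_or_gt_of_ne hjk with e | e
    · exact htri0 c i j k a e hk hyx hzx hzy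
    · exact htri0 c i k j b e hj hzx hyx hyz
    · omega
    · exact htri0 c k i j b a hj hxz hyz hyx
    · exact htri0 c j i k a b hk hxy hzy hzx
    · omega
    · exact htri0 c j k i e b hi hzy hxy hxz
    · exact htri0 c k j i e a hi hyz hxz hxy
  have hF : ∀ c, ∀ x ∈ T, N c x ∈ nbrFamily H := fun c x hx => nbr_mem_family H c (hwT x hx)
  have hcovT : ∀ x ∈ T, ∀ y ∈ T, x ≠ y → ∃ c ∈ (Finset.univ : Finset (Fin m)), y ∈ N c x := by
    intro x hx y hy hxy
    obtain ⟨c, hc⟩ := hcov {x, w, y} (Finset.card_eq_three.2
      ⟨x, w, y, hwT x hx, hxy, (hwT y hy).symm, rfl⟩)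
    exact ⟨c, mem_univ _, (hN c x y).2 hc⟩
  have hfin := ramsey_vc N hsym (nbrFamily H) d hvc m Finset.univ T
    (by rw [card_univ, Fintype.card_fin]) htri hF hcovT
  rw [hTcard, hNN] at hfin
  omega

end Pool.Agent.Hhelper19.VC
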