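import Mathlib
import Pool.Agent.Hhelper19.VC.Lower

/-! The stepping-up cover and its VC-dimension. -/

set_option autoImplicit false

namespace Pool.Agent.Hhelper19.VC

open Finset
open Pool.Agent.Hhelper55.TripleCover

lemma dlt_comm (x y : ℕ) : dlt x y = dlt y x := by
  apply le_antisymm
  · apply Nat.find_min'
    exact (dlt_spec y x).symm
  · apply Nat.find_min'
    exact (dlt_spec x y).symm

/-- monotonicity: `x ≤ y ≤ z` gives `dlt x y ≤ dlt x z`. -/
lemma dlt_mono_right {x y z : ℕ} (hxy : x ≤ y) (hyz : y ≤ z) : dlt x y ≤ dlt x z := by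
  rcases Nat.eq_or_lt_of_le hyz with rfl | h1
  · exact le_rfl
  rcases Nat.eq_or_lt_of_le hxy with rfl | h2
  · apply Nat.find_min'
    rfl
  · rw [dlt_max h2 h1]
    exact le_max_left _ _

lemma dlt_mono_left {x y z : ℕ} (hxy : x ≤ y) (hyz : y ≤ z) : dlt y z ≤ dlt x z := by
  rcases Nat.eq_or_lt_of_le hxy with rfl | h1
  · exact le_rfl
  rcases Nat.eq_or_lt_of_le hyz with rfl | h2
  · apply Nat.find_min'
    rfl
  · rw [dlt_max h1 h2]
    exact le_max_right _ _

/-- The set of the `y` on one side of `D` with `dlt D y = j` is convex. -/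
lemma dlt_convex {D j x y z : ℕ} (hxy : x ≤ y) (hyz : y ≤ z)
    (hside : D < x ∨ z < D) (hx : dlt D x = j) (hz : dlt D z = j) : dlt D y = j := by
  rcases hside with h | h
  · apply le_antisymm
    · rw [← hz]
      exact dlt_mono_right (by omega) hyz
    · rw [← hx]
      exact dlt_mono_right (by omega) hxy
  · rw [dlt_comm] at hx hz ⊢
    apply le_antisymm
    · rw [← hx]
      exact dlt_mono_left hxy (by omega)
    · rw [← hz]
      exact dlt_mono_left hyz (by omega)

/-- The colour condition for the numbers `D1 = dlt x y`, `D2 = dlt y z` of a triple `x < y < z`. -/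
def cond (j : ℕ) (b : Bool) (D1 D2 : ℕ) : Prop := dlt D1 D2 = j ∧ (b = true ↔ D1 < D2)

instance (j : ℕ) (b : Bool) (D1 D2 : ℕ) : Decidable (cond j b D1 D2) := by
  unfold cond; infer_instance

/-- The 3-graph of the colour `(j, b)`. -/
def HH (n j : ℕ) (b : Bool) : Finset (Finset (Fin n)) :=
  Finset.univ.filter (fun e => ∃ x y z : Fin n, x < y ∧ y < z ∧ e = {x, y, z} ∧
    cond j b (dlt x.val y.val) (dlt y.val z.val))

lemma mem_HH {n j : ℕ} {b : Bool} {x y z : Fin n} (hxy : x < y) (hyz : y < z) :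
    ({x, y, z} : Finset (Fin n)) ∈ HH n j b ↔
      cond j b (dlt x.val y.val) (dlt y.val z.val) := by
  unfold HH
  simp only [mem_filter, mem_univ, true_and]
  constructor
  · rintro ⟨x', y', z', h1, h2, h3, h4⟩
    obtain ⟨rfl, rfl, rfl⟩ := triple_unique hxy hyz h1 h2 h3
    exact h4
  · intro h
    exact ⟨x, y, z, hxy, hyz, rfl, h⟩

lemma HH_card {n j : ℕ} {b : Bool} {e : Finset (Fin n)} (he : e ∈ HH n j b) : e.card = 3 := by
  unfold HH at he
  simp only [mem_filter, mem_univ, true_and] at he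
  obtain ⟨x, y, z, hxy, hyz, rfl, -⟩ := he
  rw [Finset.card_eq_three]
  exact ⟨x, y, z, hxy.ne, (hxy.trans hyz).ne, hyz.ne, rfl⟩

/-- No three numbers have the same `dlt`. -/
lemma dlt_no_triangle {a b c : ℕ} (hab : a ≠ b) (hbc : b ≠ c) (hac : a ≠ c)
    (h1 : dlt a b = dlt b c) (h2 : dlt a b = dlt a c) : False := by
  rcases lt_or_gt_of_ne hab with h | h <;> rcases lt_or_gt_of_ne hbc with h' | h' <;>
    rcases lt_or_gt_of_ne hac with h'' | h''
  · exact dlt_ne h h' h1
  · omega
  · -- a < c < b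
    rw [dlt_comm b c] at h1
    exact dlt_ne h'' h' (by rw [← h2, h1])
  · -- c < a < b
    rw [dlt_comm a c] at h2
    exact dlt_ne h'' h (by rw [← h2])
  · -- b < a < c
    rw [dlt_comm a b] at h1 h2
    exact dlt_ne h h'' h2
  · -- b < c < a
    rw [dlt_comm a b] at h1 h2
    rw [dlt_comm a c] at h2
    exact dlt_ne h' h'' (by rw [← h1, h2])
  · omega
  · -- c < b < a
    rw [dlt_comm a b, dlt_comm b c] at h1
    exact dlt_ne h' h h1.symm

lemma HH_K4_free (n j : ℕ) (b : Bool) : ¬ ∃ T : Finset (Fin n), T.card = 4 ∧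
    ∀ e : Finset (Fin n), e ⊆ T → e.card = 3 → e ∈ HH n j b := by
  rintro ⟨T, hT, hall⟩
  obtain ⟨x, y, z, w, hxy, hyz, hzw, rfl⟩ := four_sorted T hT
  have key : ∀ a b' c : Fin n, a < b' → b' < c → ({a, b', c} : Finset (Fin n)) ⊆ {x, y, z, w} →
      cond j b (dlt a.val b'.val) (dlt b'.val c.val) := by
    intro a b' c hab hbc hsub
    exact (mem_HH hab hbc).1 (hall _ hsub (by
      rw [Finset.card_eq_three]
      exact ⟨a, b', c, hab.ne, (hab.trans hbc).ne, hbc.ne, rfl⟩))
  obtain ⟨a1, s1⟩ := key x y z hxy hyz (by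
    intro t ht; simp only [Finset.mem_insert, Finset.mem_singleton] at ht ⊢; tauto)
  obtain ⟨a2, s2⟩ := key y z w hyz hzw (by
    intro t ht; simp only [Finset.mem_insert, Finset.mem_singleton] at ht ⊢; tauto)
  obtain ⟨a3, s3⟩ := key x y w hxy (hyz.trans hzw) (by
    intro t ht; simp only [Finset.mem_insert, Finset.mem_singleton] at ht ⊢; tauto)
  obtain ⟨a4, s4⟩ := key x z w (hxy.trans hyz) hzw (by
    intro t ht; simp only [Finset.mem_insert, Finset.mem_singleton] at ht ⊢; tauto)
  rw [Fin.lt_def] at hxy hyz hzw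
  have n1 := dlt_ne hxy hyz
  have n2 := dlt_ne hyz hzw
  have m1 := dlt_max hxy hyz
  have m2 := dlt_max hyz hzw
  cases b
  · have l1 : dlt y.val z.val < dlt x.val y.val := by
      have : ¬ (dlt x.val y.val < dlt y.val z.val) := fun h => by simpa using s1.2 h
      omega
    have l2 : dlt z.val w.val < dlt y.val z.val := by
      have : ¬ (dlt y.val z.val < dlt z.val w.val) := fun h => by simpa using s2.2 h
      omega
    rw [max_eq_left l1.le] at m1
    rw [m1] at a4
    exact dlt_no_triangle n1 n2 (by omega) (a1.trans a2.symm) (a1.trans a4.symm)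
  · have l1 : dlt x.val y.val < dlt y.val z.val := s1.1 rfl
    have l2 : dlt y.val z.val < dlt z.val w.val := s2.1 rfl
    rw [max_eq_right l2.le] at m2
    rw [m2] at a3
    exact dlt_no_triangle n1 n2 (by omega) (a1.trans a2.symm) (a1.trans a3.symm)

/-! ### Convexity of the neighbourhoods -/

/-- region `w > v` -/
lemma conv_right {n j : ℕ} {b : Bool} {u v x y z : Fin n} (huv : u < v) (hvx : v < x)
    (hxy : x < y) (hyz : y < z) (hx : x ∈ nbr (HH n j b) u v) (hz : z ∈ nbr (HH n j b) u v) :
    y ∈ nbr (HH n j b) u v := by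
  rw [mem_nbr] at hx hz ⊢
  rw [mem_HH huv hvx] at hx
  rw [mem_HH huv (hvx.trans (hxy.trans hyz))] at hz
  rw [mem_HH huv (hvx.trans hxy)]
  rw [Fin.lt_def] at huv hvx hxy hyz
  obtain ⟨h1, h2⟩ := hx
  obtain ⟨h3, h4⟩ := hz
  have n1 := dlt_ne huv hvx
  have n2 := dlt_ne huv (show v.val < y.val by omega)
  have n3 := dlt_ne huv (show v.val < z.val by omega)
  have m1 : dlt v.val x.val ≤ dlt v.val y.val := dlt_mono_right hvx.le hxy.le
  have m2 : dlt v.val y.val ≤ dlt v.val z.val := dlt_mono_right (by omega) hyz.le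
  cases b
  · have k1 : ¬ (dlt u.val v.val < dlt v.val x.val) := fun h => by simpa using h2.2 h
    have k2 : ¬ (dlt u.val v.val < dlt v.val z.val) := fun h => by simpa using h4.2 h
    refine ⟨dlt_convex m1 m2 (Or.inr (by omega)) h1 h3, ?_⟩
    simp only [Bool.false_eq_true, false_iff]
    omega
  · have k1 : dlt u.val v.val < dlt v.val x.val := h2.1 rfl
    have k2 : dlt u.val v.val < dlt v.val z.val := h4.1 rfl
    refine ⟨dlt_convex m1 m2 (Or.inl k1) h1 h3, ?_⟩
    simp only [true_iff]
    omega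

lemma pair_swap3 {n : ℕ} (u v w : Fin n) : ({u, v, w} : Finset (Fin n)) = {w, u, v} := by
  ext t; simp only [mem_insert, mem_singleton]; tauto

lemma pair_swap2 {n : ℕ} (u v w : Fin n) : ({u, v, w} : Finset (Fin n)) = {u, w, v} := by
  ext t; simp only [mem_insert, mem_singleton]; tauto

/-- region `w < u` -/
lemma conv_left {n j : ℕ} {b : Bool} {u v x y z : Fin n} (huv : u < v) (hzu : z < u)
    (hxy : x < y) (hyz : y < z) (hx : x ∈ nbr (HH n j b) u v) (hz : z ∈ nbr (HH n j b) u v) :
    y ∈ nbr (HH n j b) u v := by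
  rw [mem_nbr, pair_swap3] at hx hz ⊢
  rw [mem_HH (hxy.trans (hyz.trans hzu)) huv] at hx
  rw [mem_HH hzu huv] at hz
  rw [mem_HH (hyz.trans hzu) huv]
  rw [Fin.lt_def] at huv hzu hxy hyz
  obtain ⟨h1, h2⟩ := hx
  obtain ⟨h3, h4⟩ := hz
  have n1 := dlt_ne (show x.val < u.val by omega) huv
  have n2 := dlt_ne (show y.val < u.val by omega) huv
  have n3 := dlt_ne hzu huv
  have m1 : dlt y.val u.val ≤ dlt x.val u.val := dlt_mono_left hxy.le (by omega)
  have m2 : dlt z.val u.val ≤ dlt y.val u.val := dlt_mono_left hyz.le hzu.le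
  rw [dlt_comm] at h1 h3
  cases b
  · have k1 : ¬ (dlt x.val u.val < dlt u.val v.val) := fun h => by simpa using h2.2 h
    have k2 : ¬ (dlt z.val u.val < dlt u.val v.val) := fun h => by simpa using h4.2 h
    refine ⟨?_, ?_⟩
    · rw [dlt_comm]
      exact dlt_convex m2 m1 (Or.inl (by omega)) h3 h1
    · simp only [Bool.false_eq_true, false_iff]
      omega
  · have k1 : dlt x.val u.val < dlt u.val v.val := h2.1 rfl
    have k2 : dlt z.val u.val < dlt u.val v.val := h4.1 rfl
    refine ⟨?_, ?_⟩
    · rw [dlt_comm]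
      exact dlt_convex m2 m1 (Or.inr k1) h3 h1
    · simp only [true_iff]
      omega

/-- region `u < w < v` -/
lemma conv_mid {n j : ℕ} {b : Bool} {u v x y z : Fin n} (hux : u < x) (hzv : z < v)
    (hxy : x < y) (hyz : y < z) (hx : x ∈ nbr (HH n j b) u v) (hz : z ∈ nbr (HH n j b) u v) :
    y ∈ nbr (HH n j b) u v := by
  rw [mem_nbr, pair_swap2] at hx hz ⊢
  rw [mem_HH hux (hxy.trans (hyz.trans hzv))] at hx
  rw [mem_HH (hux.trans (hxy.trans hyz)) hzv] at hz
  rw [mem_HH (hux.trans hxy) (hyz.trans hzv)]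
  rw [Fin.lt_def] at hux hzv hxy hyz
  obtain ⟨h1, h2⟩ := hx
  obtain ⟨h3, h4⟩ := hz
  have n1 := dlt_ne hux (show x.val < v.val by omega)
  have n2 := dlt_ne (show u.val < y.val by omega) (show y.val < v.val by omega)
  have n3 := dlt_ne (show u.val < z.val by omega) hzv
  have x1 := dlt_max hux (show x.val < v.val by omega)
  have x2 := dlt_max (show u.val < y.val by omega) (show y.val < v.val by omega)
  have x3 := dlt_max (show u.val < z.val by omega) hzv
  have m1 : dlt y.val v.val ≤ dlt x.val v.val := dlt_mono_left hxy.le (by omega)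
  have m2 : dlt z.val v.val ≤ dlt y.val v.val := dlt_mono_left hyz.le hzv.le
  have m3 : dlt u.val x.val ≤ dlt u.val y.val := dlt_mono_right hux.le hxy.le
  have m4 : dlt u.val y.val ≤ dlt u.val z.val := dlt_mono_right (by omega) hyz.le
  cases b
  · have k1 : dlt x.val v.val < dlt u.val x.val := by
      have : ¬ (dlt u.val x.val < dlt x.val v.val) := fun h => by simpa using h2.2 h
      omega
    have k2 : dlt z.val v.val < dlt u.val z.val := by
      have : ¬ (dlt u.val z.val < dlt z.val v.val) := fun h => by simpa using h4.2 h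
      omega
    rw [max_eq_left k1.le] at x1
    rw [max_eq_left k2.le] at x3
    have e1 : dlt u.val y.val = dlt u.val x.val := by omega
    have e2 : dlt u.val z.val = dlt u.val x.val := by omega
    rw [e2] at h3
    refine ⟨?_, ?_⟩
    · rw [e1]
      exact dlt_convex m2 m1 (Or.inr k1) h3 h1
    · simp only [Bool.false_eq_true, false_iff]
      omega
  · have k1 : dlt u.val x.val < dlt x.val v.val := h2.1 rfl
    have k2 : dlt u.val z.val < dlt z.val v.val := h4.1 rfl
    rw [max_eq_right k1.le] at x1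
    rw [max_eq_right k2.le] at x3
    have e1 : dlt y.val v.val = dlt z.val v.val := by omega
    have e2 : dlt x.val v.val = dlt z.val v.val := by omega
    rw [e2] at h1
    rw [dlt_comm] at h1 h3
    refine ⟨?_, ?_⟩
    · rw [e1, dlt_comm]
      exact dlt_convex m3 m4 (Or.inr k2) h1 h3
    · simp only [true_iff]
      omega

/-- Seven increasing points cannot be cut out alternately. -/
lemma no_alternate {n j : ℕ} {b : Bool} {u v : Fin n} (huv : u < v) (t : Fin 7 → Fin n)
    (ht : StrictMono t) (hodd : ∀ i : Fin 7, t i ∈ nbr (HH n j b) u v ↔ i.val % 2 = 0) : False := by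
  have hne : ∀ w, w ∈ nbr (HH n j b) u v → w ≠ u ∧ w ≠ v := by
    intro w hw
    rw [mem_nbr] at hw
    have h3 := HH_card hw
    constructor
    · rintro rfl
      have h7 : ({w, v, w} : Finset (Fin n)) = {v, w} := by
        ext t; simp only [mem_insert, mem_singleton]; tauto
      rw [h7] at h3
      have := Finset.card_le_two (a := v) (b := w)
      omega
    · rintro rfl
      have h7 : ({u, w, w} : Finset (Fin n)) = {u, w} := by
        ext t; simp only [mem_insert, mem_singleton]; tauto
      rw [h7] at h3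
      have := Finset.card_le_two (a := u) (b := w)
      omega
  have m0 := (hodd 0).2 (by decide)
  have m2 := (hodd 2).2 (by decide)
  have m4 := (hodd 4).2 (by decide)
  have m6 := (hodd 6).2 (by decide)
  have q1 : t 1 ∉ nbr (HH n j b) u v := fun h => by
    have := (hodd 1).1 h
    exact absurd this (by decide)
  have q3 : t 3 ∉ nbr (HH n j b) u v := fun h => by
    have := (hodd 3).1 h
    exact absurd this (by decide)
  have q5 : t 5 ∉ nbr (HH n j b) u v := fun h => by
    have := (hodd 5).1 h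
    exact absurd this (by decide)
  have l01 : t 0 < t 1 := ht (by decide)
  have l12 : t 1 < t 2 := ht (by decide)
  have l23 : t 2 < t 3 := ht (by decide)
  have l34 : t 3 < t 4 := ht (by decide)
  have l45 : t 4 < t 5 := ht (by decide)
  have l56 : t 5 < t 6 := ht (by decide)
  have a0 := hne _ m0
  have a2 := hne _ m2
  have a4 := hne _ m4
  have a6 := hne _ m6
  -- two consecutive points of the four lie in the same region
  have step : ∀ x y z : Fin n, x < y → y < z → x ∈ nbr (HH n j b) u v →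
      z ∈ nbr (HH n j b) u v → y ∉ nbr (HH n j b) u v → (x < u ∧ u < z) ∨ (x < v ∧ v < z) := by
    intro x y z hxy hyz hx hz hy
    by_contra hcon
    push Not at hcon
    obtain ⟨c1, c2⟩ := hcon
    have hx' := hne x hx
    have hz' := hne z hz
    apply hy
    rcases lt_or_gt_of_ne hx'.1 with h | h
    · have h' : z < u := lt_of_le_of_ne (c1 h) hz'.1
      exact conv_left huv h' hxy hyz hx hz
    · rcases lt_or_gt_of_ne hx'.2 with h1 | h1
      · have h' : z < v := lt_of_le_of_ne (c2 h1) hz'.2
        exact conv_mid h h' hxy hyz hx hz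
      · exact conv_right huv h1 hxy hyz hx hz
  have s1 := step _ _ _ l01 l12 m0 m2 q1
  have s2 := step _ _ _ l23 l34 m2 m4 q3
  have s3 := step _ _ _ l45 l56 m4 m6 q5
  rw [Fin.lt_def] at *
  simp only [Fin.lt_def] at s1 s2 s3
  omega

/-- The family of the neighbourhoods of the stepping-up cover has VC-dimension at most 6. -/
lemma vc_le_six {n m : ℕ} (c : Fin m → ℕ × Bool) :
    (nbrFamily (fun i => HH n (c i).1 (c i).2)).vcDim ≤ 6 := by
  unfold Finset.vcDim
  apply Finset.sup_le
  intro T hT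
  rw [mem_shatterer] at hT
  by_contra hcon
  push Not at hcon
  obtain ⟨T', hT'sub, hT'card⟩ := Finset.exists_subset_card_eq (show 7 ≤ T.card by omega)
  have hsh := hT.mono_right hT'sub
  set t := T'.orderEmbOfFin hT'card with ht
  set X : Finset (Fin n) := (Finset.univ.filter (fun i : Fin 7 => i.val % 2 = 0)).image t with hX
  have hXsub : X ⊆ T' := by
    intro x hx
    obtain ⟨i, -, rfl⟩ := mem_image.1 hx
    exact Finset.orderEmbOfFin_mem T' hT'card i
  obtain ⟨B, hB, hBX⟩ := hsh hXsub
  unfold nbrFamily at hB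
  rw [mem_image] at hB
  obtain ⟨⟨i, u, v⟩, hp, rfl⟩ := hB
  have huv : u ≠ v := (mem_filter.1 hp).2
  have hmem : ∀ k : Fin 7, t k ∈ nbr (HH n (c i).1 (c i).2) u v ↔ k.val % 2 = 0 := by
    intro k
    have h1 : t k ∈ T' ∩ nbr (HH n (c i).1 (c i).2) u v ↔ t k ∈ X := by
      rw [← hBX]
    rw [mem_inter] at h1
    have h2 : t k ∈ T' := Finset.orderEmbOfFin_mem T' hT'card k
    have h3 : t k ∈ X ↔ k.val % 2 = 0 := by
      rw [hX, mem_image]
      constructor
      · rintro ⟨k', hk', he⟩
        have := t.injective he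
        rw [← this]
        exact (mem_filter.1 hk').2
      · intro h
        exact ⟨k, mem_filter.2 ⟨mem_univ _, h⟩, rfl⟩
    rw [← h3, ← h1]
    exact ⟨fun h => ⟨h2, h⟩, fun h => h.2⟩
  rcases lt_or_gt_of_ne huv with h | h
  · exact no_alternate h t t.strictMono hmem
  · have hsw : nbr (HH n (c i).1 (c i).2) u v = nbr (HH n (c i).1 (c i).2) v u := by
      ext w
      rw [mem_nbr, mem_nbr]
      have : ({u, v, w} : Finset (Fin n)) = {v, u, w} := by
        ext t; simp only [mem_insert, mem_singleton]; tauto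
      rw [this]
    rw [hsw] at hmem
    exact no_alternate h t t.strictMono hmem

/-- The stepping-up cover. -/
lemma upper {n N q : ℕ} (hn : n ≤ 2 ^ N) (hN : N ≤ 2 ^ q) (hN0 : 0 < N) (hq : 0 < q) :
    CoversVC 6 n (2 * q) := by
  classical
  let c : Fin (2 * q) → ℕ × Bool := fun i => (i.val / 2, decide (i.val % 2 = 1))
  refine ⟨fun i => HH n (c i).1 (c i).2, ⟨?_, ?_, ?_⟩, vc_le_six c⟩
  · intro i e he
    exact HH_card he
  · intro i
    exact HH_K4_free _ _ _
  · intro e he
    obtain ⟨x, y, z, hxy, hyz, rfl⟩ := three_sorted e he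
    have h1 : dlt x.val y.val < N := dlt_lt_of_lt (by omega) (by omega) hN0
    have h2 : dlt y.val z.val < N := dlt_lt_of_lt (by omega) (by omega) hN0
    have h3 : dlt (dlt x.val y.val) (dlt y.val z.val) < q :=
      dlt_lt_of_lt (by omega) (by omega) hq
    set j := dlt (dlt x.val y.val) (dlt y.val z.val) with hj
    by_cases hlt : dlt x.val y.val < dlt y.val z.val
    · refine ⟨⟨2 * j + 1, by omega⟩, ?_⟩
      rw [mem_HH hxy hyz]
      have e1 : (c ⟨2 * j + 1, by omega⟩).1 = j := by
        show (2 * j + 1) / 2 = j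
        omega
      have e2 : (c ⟨2 * j + 1, by omega⟩).2 = true := by
        show decide ((2 * j + 1) % 2 = 1) = true
        rw [decide_eq_true_iff]
        omega
      rw [e1, e2]
      exact ⟨hj.symm, by simp [hlt]⟩
    · refine ⟨⟨2 * j, by omega⟩, ?_⟩
      rw [mem_HH hxy hyz]
      have e1 : (c ⟨2 * j, by omega⟩).1 = j := by
        show (2 * j) / 2 = j
        omega
      have e2 : (c ⟨2 * j, by omega⟩).2 = false := by
        show decide ((2 * j) % 2 = 1) = false
        rw [decide_eq_false_iff_not]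
        omega
      rw [e1, e2]
      exact ⟨hj.symm, by simp [hlt]⟩

end Pool.Agent.Hhelper19.VC
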