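import Mathlib
import Pool.Agent.Hhelper19.VC.Upper

/-! Numerical form of the bounds. -/

set_option autoImplicit false

namespace Pool.Agent.Hhelper19.VC

open Finset
open Pool.Agent.Hhelper55.TripleCover

lemma coversVC_pos {d n m : ℕ} (hn : 3 ≤ n) (h : CoversVC d n m) : 0 < m := by
  rcases Nat.eq_zero_or_pos m with rfl | h0
  · obtain ⟨H, ⟨-, -, hc⟩, -⟩ := h
    obtain ⟨i, -⟩ := hc {(⟨0, by omega⟩ : Fin n), (⟨1, by omega⟩ : Fin n),
      (⟨2, by omega⟩ : Fin n)} (by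
        rw [Finset.card_eq_three]
        exact ⟨_, _, _, by simp, by simp, by simp, rfl⟩)
    exact i.elim0
  · exact h0

lemma coversVC_mono {d d' n m : ℕ} (hd : d ≤ d') (h : CoversVC d n m) : CoversVC d' n m := by
  obtain ⟨H, h1, h2⟩ := h
  exact ⟨H, h1, h2.trans hd⟩

lemma need_lt {m N : ℕ} (hm : 0 < m) (hN : 2 ≤ N) : need (2 ^ m) N 0 ≤ 2 ^ (m * N ^ 2) := by
  unfold need
  have h3 := sum_Ico_zero N
  set s := ∑ i ∈ Finset.Ico 0 N, i with hs
  have h4 : (N + 1 - 0) ≤ 2 ^ N := by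
    have := Nat.lt_two_pow_self (n := N)
    omega
  calc (N + 1 - 0) * (2 ^ m) ^ s ≤ 2 ^ N * (2 ^ m) ^ s := Nat.mul_le_mul_right _ h4
    _ = 2 ^ (N + m * s) := by rw [← pow_mul, ← pow_add]
    _ ≤ 2 ^ (m * N ^ 2) := by
      apply Nat.pow_le_pow_right (by norm_num)
      obtain ⟨k, rfl⟩ : ∃ k, N = k + 2 := ⟨N - 2, by omega⟩
      have e1 : k + 2 - 1 = k + 1 := by omega
      rw [e1] at h3
      have h5 : k + 2 ≤ m * (k + 2) := Nat.le_mul_of_pos_left _ hm
      have h6 : 2 * (k + 2 + m * s) ≤ 2 * (m * (k + 2) ^ 2) := by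
        calc 2 * (k + 2 + m * s) = 2 * (k + 2) + m * (2 * s) := by ring
          _ ≤ 2 * (m * (k + 2)) + m * ((k + 2) * (k + 1)) := by rw [h3]; omega
          _ = m * ((k + 2) * (k + 3)) := by ring
          _ ≤ m * (2 * (k + 2) ^ 2) := by
            apply Nat.mul_le_mul_left
            nlinarith
          _ = 2 * (m * (k + 2) ^ 2) := by ring
      omega

/-- The lower bound. -/
theorem lower {d n m : ℕ} (hn : 3 ≤ n) (h : CoversVC d n m) :
    Real.log (Real.log n) ≤ 1157 * (2 ^ d * m) := by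
  have hm := coversVC_pos hn h
  have h1 := lower_aux h
  set E := expo d with hE
  have hE1 : 1 ≤ E := by rw [hE]; unfold expo; omega
  have hN2 : 2 ≤ 2 ^ (E * m) + 1 := by
    have := Nat.one_le_two_pow (n := E * m)
    omega
  have h2 : n < 2 ^ (m * (2 ^ (E * m) + 1) ^ 2) := lt_of_lt_of_le h1 (need_lt hm hN2)
  have h3 : m * (2 ^ (E * m) + 1) ^ 2 ≤ 2 ^ ((2 * E + 3) * m) := by
    have a1 : 2 ^ (E * m) + 1 ≤ 2 ^ (E * m + 1) := by
      have := Nat.one_le_two_pow (n := E * m)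
      rw [pow_succ]; omega
    have a2 : m ≤ 2 ^ m := Nat.lt_two_pow_self.le
    calc m * (2 ^ (E * m) + 1) ^ 2 ≤ 2 ^ m * (2 ^ (E * m + 1)) ^ 2 :=
        Nat.mul_le_mul a2 (Nat.pow_le_pow_left a1 2)
      _ = 2 ^ (m + (E * m + 1) * 2) := by rw [← pow_mul, ← pow_add]
      _ ≤ 2 ^ ((2 * E + 3) * m) := by
        apply Nat.pow_le_pow_right (by norm_num)
        have e : (2 * E + 3) * m = m + E * m * 2 + 2 * m := by ring
        rw [e]
        omega
  have hlog2 : Real.log 2 ≤ 1 := by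
    have := Real.log_two_lt_d9
    linarith
  have hlog2' : 0 < Real.log 2 := Real.log_pos (by norm_num)
  have hnR : (3 : ℝ) ≤ n := by exact_mod_cast hn
  have hlogn : 0 < Real.log n := Real.log_pos (by linarith)
  have h4 : Real.log n ≤ 2 ^ ((2 * E + 3) * m) := by
    have b1 : (n : ℝ) ≤ (2 : ℝ) ^ (m * (2 ^ (E * m) + 1) ^ 2) := by exact_mod_cast h2.le
    have b2 : Real.log n ≤ Real.log ((2 : ℝ) ^ (m * (2 ^ (E * m) + 1) ^ 2)) :=
      Real.log_le_log (by linarith) b1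
    rw [Real.log_pow] at b2
    have b3 : ((m * (2 ^ (E * m) + 1) ^ 2 : ℕ) : ℝ) ≤ ((2 ^ ((2 * E + 3) * m) : ℕ) : ℝ) := by
      exact_mod_cast h3
    have b4 : ((2 ^ ((2 * E + 3) * m) : ℕ) : ℝ) = (2 : ℝ) ^ ((2 * E + 3) * m) := by push_cast; rfl
    rw [b4] at b3
    calc Real.log n ≤ ((m * (2 ^ (E * m) + 1) ^ 2 : ℕ) : ℝ) * Real.log 2 := b2
      _ ≤ ((m * (2 ^ (E * m) + 1) ^ 2 : ℕ) : ℝ) * 1 :=
        mul_le_mul_of_nonneg_left hlog2 (Nat.cast_nonneg _)
      _ ≤ _ := by rw [mul_one]; exact b3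
  have h5 : Real.log (Real.log n) ≤ ((2 * E + 3) * m : ℕ) * Real.log 2 := by
    have := Real.log_le_log hlogn h4
    rwa [Real.log_pow] at this
  have h6 : (2 * E + 3) * m ≤ 1157 * (2 ^ d * m) := by
    have c1 := expo_le d
    rw [← hE] at c1
    have c2 : 1 ≤ 2 ^ d := Nat.one_le_two_pow
    have c3 : 2 * E + 3 ≤ 1157 * 2 ^ d := by omega
    calc (2 * E + 3) * m ≤ 1157 * 2 ^ d * m := Nat.mul_le_mul_right _ c3
      _ = 1157 * (2 ^ d * m) := by ring
  have h7 : (((2 * E + 3) * m : ℕ) : ℝ) ≤ 1157 * (2 ^ d * m) := by exact_mod_cast h6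
  calc Real.log (Real.log n) ≤ ((2 * E + 3) * m : ℕ) * Real.log 2 := h5
    _ ≤ ((2 * E + 3) * m : ℕ) * 1 := mul_le_mul_of_nonneg_left hlog2 (Nat.cast_nonneg _)
    _ ≤ _ := by rw [mul_one]; exact h7

/-- The upper bound. -/
theorem upper_num {n : ℕ} (hn : 16 ≤ n) :
    ∃ m : ℕ, CoversVC 6 n m ∧ (m : ℝ) ≤ 8 * Real.log (Real.log n) := by
  set N := Nat.clog 2 n with hN
  set q := Nat.clog 2 N with hq
  have hN0 : 4 ≤ N := by
    rw [hN]
    have : Nat.clog 2 16 ≤ Nat.clog 2 n := Nat.clog_mono_right 2 hn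
    have e : Nat.clog 2 16 = 4 := by
      have : (16 : ℕ) = 2 ^ 4 := by norm_num
      rw [this, Nat.clog_pow 2 4 (by norm_num)]
    omega
  have hq0 : 2 ≤ q := by
    rw [hq]
    have : Nat.clog 2 4 ≤ Nat.clog 2 N := Nat.clog_mono_right 2 hN0
    have e : Nat.clog 2 4 = 2 := by
      have : (4 : ℕ) = 2 ^ 2 := by norm_num
      rw [this, Nat.clog_pow 2 2 (by norm_num)]
    omega
  refine ⟨2 * q, upper (Nat.le_pow_clog (by norm_num) n) (Nat.le_pow_clog (by norm_num) N)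
    (by omega) (by omega), ?_⟩
  have l1 : 0.6931471803 < Real.log 2 := Real.log_two_gt_d9
  have l2 : Real.log 2 < 0.6931471808 := Real.log_two_lt_d9
  have hnR : (16 : ℝ) ≤ n := by exact_mod_cast hn
  have hlog16 : Real.log 16 = 4 * Real.log 2 := by
    rw [show (16 : ℝ) = 2 ^ 4 by norm_num, Real.log_pow]
    norm_num
  have hln : 2.77 ≤ Real.log n := by
    have := Real.log_le_log (by norm_num) hnR
    rw [hlog16] at this
    linarith
  have hlln : 1 ≤ Real.log (Real.log n) := by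
    rw [Real.le_log_iff_exp_le (by linarith)]
    have := Real.exp_one_lt_d9
    linarith
  have a1 : 2 ^ (N - 1) < n := by
    have : N - 1 < Nat.clog 2 n := by omega
    exact (Nat.lt_clog_iff_pow_lt (by norm_num)).1 this
  have a2 : 2 ^ (q - 1) < N := by
    have : q - 1 < Nat.clog 2 N := by omega
    exact (Nat.lt_clog_iff_pow_lt (by norm_num)).1 this
  have a3 : ((N : ℝ) - 1) * Real.log 2 ≤ Real.log n := by
    have h1 : (2 : ℝ) ^ (N - 1) ≤ n := by exact_mod_cast a1.le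
    have h2 := Real.log_le_log (by positivity) h1
    rw [Real.log_pow, Nat.cast_sub (by omega)] at h2
    simpa using h2
  have a4 : ((q : ℝ) - 1) * Real.log 2 ≤ Real.log N := by
    have h1 : (2 : ℝ) ^ (q - 1) ≤ N := by exact_mod_cast a2.le
    have h2 := Real.log_le_log (by positivity) h1
    rw [Real.log_pow, Nat.cast_sub (by omega)] at h2
    simpa using h2
  have hNR : (4 : ℝ) ≤ N := by exact_mod_cast hN0
  have a5 : (N : ℝ) ≤ 2 * Real.log n := by
    have h1 : ((N : ℝ) - 1) * 0.6931471803 ≤ ((N : ℝ) - 1) * Real.log 2 :=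
      mul_le_mul_of_nonneg_left l1.le (by linarith)
    nlinarith
  have a6 : Real.log N ≤ Real.log 2 + Real.log (Real.log n) := by
    have h1 := Real.log_le_log (by linarith) a5
    rw [Real.log_mul (by norm_num) (by linarith)] at h1
    exact h1
  have hqR : (2 : ℝ) ≤ q := by exact_mod_cast hq0
  have a7 : ((q : ℝ) - 1) * 0.6931471803 ≤ ((q : ℝ) - 1) * Real.log 2 :=
    mul_le_mul_of_nonneg_left l1.le (by linarith)
  push_cast
  nlinarith

lemma f3VC_spec {d n : ℕ} (hd : 6 ≤ d) (hn : 16 ≤ n) :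
    CoversVC d n (f3VC d n) ∧ (f3VC d n : ℝ) ≤ 8 * Real.log (Real.log n) := by
  obtain ⟨m, hm, hm'⟩ := upper_num hn
  have h := coversVC_mono hd hm
  refine ⟨Nat.sInf_mem (s := {m | CoversVC d n m}) ⟨m, h⟩, ?_⟩
  have h1 : f3VC d n ≤ m := Nat.sInf_le h
  have h2 : (f3VC d n : ℝ) ≤ m := by exact_mod_cast h1
  exact h2.trans hm'

end Pool.Agent.Hhelper19.VC
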